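import Mathlib
import Pool.Agent.Lib.helper22.RayE

set_option autoImplicit false

namespace Pool.Agent.Results.MP_a0fd6e_gt.OpenQuasi

open Set Pool.Agent.Lib.helper22.Ray

universe u v

/-- there are an order tree `T` and a continuous bijection from `X` onto its ray space -/
def IsQuasiRay (X : Type v) [TopologicalSpace X] : Prop :=
  ∃ (T : Type u) (_ : PartialOrder T), IsOrderTree T ∧
    ∃ f : X → RaySp False T, Continuous f ∧ Function.Bijective f

theorem result (X : Type v) [TopologicalSpace X] (hX : IsRaySpace.{u} False X)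
    (U : Set X) (hU : IsOpen U) : IsQuasiRay.{u} U := by
  obtain ⟨T, _, h, ⟨φ⟩⟩ := hX
  have hK : IsClosed (φ '' U)ᶜ := (φ.isOpenMap U hU).isClosed_compl
  obtain ⟨f, h1, h2⟩ := quasi h hK
  let g : U → {Q // Q ∉ (φ '' U)ᶜ} := fun x => ⟨φ x.1, not_not.2 ⟨x.1, x.2, rfl⟩⟩
  refine ⟨_, inferInstance, (mkCut h _).newTree, f ∘ g,
    h1.comp ((φ.continuous.comp continuous_subtype_val).subtype_mk _), h2.comp ⟨?_, ?_⟩⟩
  · intro x y hxy
    exact Subtype.ext (φ.injective (congrArg Subtype.val hxy))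
  · rintro ⟨Q, hQ⟩
    obtain ⟨x, hx, rfl⟩ := not_not.1 hQ
    exact ⟨⟨x, hx⟩, rfl⟩

end Pool.Agent.Results.MP_a0fd6e_gt.OpenQuasi
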